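import Mathlib
import Pool.Agent.MP_405fb9_co.Defs
import Pool.Agent.MP_405fb9_co.Wagner

open Pool.Agent.MP_405fb9_co

/-- The Wagner graph (the circulant graph on `ZMod 8` with jumps `1` and `4`) is both a
hypo-unique domination graph and domination bicritical. -/
theorem Pool.Agent.Results.MP_405fb9_co.WagnerGraph.result :
    HypoUD (SimpleGraph.circulantGraph ({1, 4} : Set (ZMod 8))) ∧
      Bicritical (SimpleGraph.circulantGraph ({1, 4} : Set (ZMod 8))) :=
  ⟨wagner_hypoUD, wagner_bicritical⟩
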